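import Pool.Agent.X197.Sick

/-!
# Sick products of two infinite compact spaces are metrizable (MP_1eaa31_an, Q1)
-/

open Set Topology TopologicalSpace Pool.Agent.X197.Sick

namespace Pool.Agent.Results.MP_1eaa31_an.ProductsMetrizable

universe u v w

/-- **Answer to Q1 of MP_1eaa31_an** (the conjecture holds). Let `K` and `L` be infinite compact
Hausdorff spaces such that `K × L` is sick. Then `K`, `L` and `K × L` are metrizable. -/
theorem result (K : Type u) (L : Type v) [TopologicalSpace K] [CompactSpace K] [T2Space K]
    [Infinite K] [TopologicalSpace L] [CompactSpace L] [T2Space L] [Infinite L]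
    (h : IsSick.{max u v, w} (K × L)) :
    MetrizableSpace K ∧ MetrizableSpace L ∧ MetrizableSpace (K × L) := by
  obtain ⟨h1, h2⟩ := metrizable_both h
  exact ⟨h1, h2, inferInstance⟩

end Pool.Agent.Results.MP_1eaa31_an.ProductsMetrizable
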